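import Mathlib

namespace Pool.Agent.Results.MP_80b08f_co.Many

open Function

/-- Permutations of all sizes. -/
abbrev Pm := Σ n : ℕ, Equiv.Perm (Fin n)

/-- f is an occurrence of α in β: it preserves the position order and the value order. -/
def Emb (α β : Pm) (f : Fin α.1 → Fin β.1) : Prop :=
  StrictMono f ∧ ∀ i j, α.2 i < α.2 j → β.2 (f i) < β.2 (f j)

/-- Closed under containment. -/
def IsClass (C : Set Pm) : Prop := ∀ α β f, Emb α β f → β ∈ C → α ∈ C

def OneAmalg (C : Set Pm) : Prop :=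
  ∀ α ∈ C, α.1 ≤ 1 → ∀ β ∈ C, ∀ γ ∈ C, ∀ f g, Emb α β f → Emb α γ g →
    ∃ δ ∈ C, ∃ f' g', Emb β δ f' ∧ Emb γ δ g' ∧ f' ∘ f = g' ∘ g

/-- Red entries form a pattern in A, the other entries a pattern in B. -/
def Merge (A B : Set Pm) : Set Pm :=
  {π | ∃ red : Set (Fin π.1), (∃ α ∈ A, ∃ f, Emb α π f ∧ Set.range f = red) ∧
    ∃ β ∈ B, ∃ g, Emb β π g ∧ Set.range g = redᶜ}

/-- C has a nontrivial splitting into two classes. -/
def Splittable (C : Set Pm) : Prop :=
  ∃ A B, IsClass A ∧ IsClass B ∧ C ⊆ Merge A B ∧ ¬ C ⊆ A ∧ ¬ C ⊆ B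

lemma realize {X A : Type} [Finite X] [LinearOrder A] (P Q : X → A)
    (hP : Injective P) (hQ : Injective Q) : ∃ (δ : Pm) (e : Fin δ.1 ≃ X),
      ∀ i j, (i < j ↔ P (e i) < P (e j)) ∧ (δ.2 i < δ.2 j ↔ Q (e i) < Q (e j)) := by
  have := Fintype.ofFinite X
  let e1 := @monoEquivOfFin X _ (LinearOrder.lift' P hP) _ rfl
  let e2 := @monoEquivOfFin X _ (LinearOrder.lift' Q hQ) _ rfl
  refine ⟨⟨_, e1.toEquiv.trans e2.toEquiv.symm⟩, e1.toEquiv, fun i j => ⟨?_, ?_⟩⟩
  · letI := LinearOrder.lift' P hP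
    exact e1.lt_iff_lt.symm
  · letI := LinearOrder.lift' Q hQ
    exact e2.symm.lt_iff_lt

inductive U
  | leaf (i : ℤ)
  | node (i : ℤ) (u : U)

/-- head coordinate: s = true is the position, s = false the value -/
def hd (w : ℤ) (s : Bool) : U → ℤ
  | .leaf i => if s then 2 * (i + w) + 1 else -2 * i + 1
  | .node i _ => if s then 2 * i else -2 * i

def R (w : ℤ) (s : Bool) : U → List ℤ
  | .leaf i => [hd w s (.leaf i)]
  | .node i u => hd w s (.node i u) :: R w s u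

def col : U → ℤ
  | .leaf i => i
  | .node _ u => col u

lemma R_lt {w : ℤ} {s : Bool} {a b : U} : R w s a < R w s b ↔
    hd w s a < hd w s b ∨ ∃ i u v, a = .node i u ∧ b = .node i v ∧ R w s u < R w s v := by
  rcases a with i | ⟨i, u⟩ <;> rcases b with j | ⟨j, v⟩ <;> cases s <;>
    simp [R, hd, List.cons_lt_cons_iff]
  all_goals first
    | omega
    | exact or_congr_right ⟨fun h => ⟨h.1.symm, h.2⟩, fun h => ⟨h.1.symm, h.2⟩⟩

lemma R_inj (w : ℤ) (s : Bool) : Injective (R w s) := by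
  intro a
  induction a with
  | leaf i => rintro (j | ⟨j, v⟩) <;> cases s <;> simp [R, hd] <;> omega
  | node i u ih =>
    rintro (j | ⟨j, v⟩) <;> cases s <;> simp [R, hd]
    all_goals first
      | omega
      | exact fun h1 h2 => ⟨h1, ih h2⟩

def Em (w : ℤ) (φ : U → U) : Prop := ∀ s a b, R w s a < R w s b → R w s (φ a) < R w s (φ b)

lemma homog (w : ℤ) (x y : U) : ∃ φ ψ, Em w φ ∧ Em w ψ ∧ φ x = ψ y := by
  have step : ∀ m u y, (∃ φ ψ, Em w φ ∧ Em w ψ ∧ φ u = ψ y) →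
      ∃ φ ψ, Em w φ ∧ Em w ψ ∧ φ (.node m u) = ψ y := by
    rintro m u y ⟨φ, ψ, h1, h2, h3⟩
    refine ⟨fun a => match a with | .leaf i => .leaf i | .node i v => .node i (φ v),
      fun a => .node m (ψ a), fun s a b h => ?_, fun s a b h => ?_, by simp [h3]⟩
    · rw [R_lt] at h ⊢
      rcases h with h | ⟨i, u, v, rfl, rfl, h⟩
      · left
        cases a <;> cases b <;> exact h
      · exact Or.inr ⟨i, _, _, rfl, rfl, h1 s _ _ h⟩
    · exact R_lt.mpr (Or.inr ⟨m, _, _, rfl, rfl, h2 s _ _ h⟩)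
  induction x with
  | node m u ih => exact step _ _ _ ih
  | leaf i =>
    induction y with
    | node m v ih =>
      obtain ⟨φ, ψ, h1, h2, h3⟩ := ih
      obtain ⟨φ, ψ, h1, h2, h3⟩ := step m v _ ⟨ψ, φ, h2, h1, h3.symm⟩
      exact ⟨ψ, φ, h2, h1, h3.symm⟩
    | leaf j =>
      refine ⟨fun a => match a with | .leaf k => .leaf (k + (j - i)) | .node k v => .node (k + (j - i)) v,
        id, fun s a b h => ?_, fun _ _ _ h => h, by simp⟩
      rw [R_lt] at h ⊢
      rcases h with h | ⟨i, u, v, rfl, rfl, h⟩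
      · left
        cases a <;> cases b <;> cases s <;> simp [hd] at h ⊢ <;> omega
      · exact Or.inr ⟨_, _, _, rfl, rfl, h⟩

lemma descent {X : Type} (w : ℤ) (c : Bool → X → ℤ)
    (hs : ∀ I : Set X, (∀ s, ∀ a ∈ I, ∀ b ∈ I, ∀ x, c s a < c s x → c s x < c s b → x ∈ I) →
      ∀ a ∈ I, ∀ b ∈ I, a ≠ b → ∀ x, x ∈ I) (x0 : X) :
    ∀ u (e : X → U), e x0 = u → (∀ s a b, c s a < c s b → R w s (e a) < R w s (e b)) →
      ∃ e' : X → U, (∀ x, col (e' x) = col (e x)) ∧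
        ∀ s a b, c s a < c s b → hd w s (e' a) < hd w s (e' b) := by
  have base : ∀ e : X → U, (∀ s a b, c s a < c s b → R w s (e a) < R w s (e b)) →
      (¬ ∃ i, ∀ x, ∃ v, e x = .node i v) →
      ∀ s a b, c s a < c s b → hd w s (e a) < hd w s (e b) := by
    intro e he hn s a b h
    rcases R_lt.mp (he s a b h) with h1 | ⟨i, u, v, h1, h2, -⟩
    · exact h1
    refine absurd ⟨i, hs {x | ∃ v, e x = .node i v} ?_ a ⟨u, h1⟩ b ⟨v, h2⟩
      (fun e => by simp [e] at h)⟩ hn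
    rintro t p ⟨u, hp⟩ q ⟨v, hq⟩ x k1 k2
    rcases R_lt.mp (he t _ _ k1) with k1 | ⟨j, _, z, k3, k4, -⟩
    · rcases R_lt.mp (he t _ _ k2) with k2 | ⟨j, z, _, k3, k4, -⟩
      · rw [hp] at k1
        rw [hq] at k2
        exact absurd (k1.trans k2) (lt_irrefl _)
      · rw [hq] at k4
        cases k4
        exact ⟨z, k3⟩
    · rw [hp] at k3
      cases k3
      exact ⟨z, k4⟩
  intro u
  induction u with
  | leaf i =>
    intro e h0 he
    refine ⟨e, fun _ => rfl, base e he ?_⟩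
    rintro ⟨j, hj⟩
    obtain ⟨v, hv⟩ := hj x0
    rw [h0] at hv
    cases hv
  | node i u ih =>
    intro e h0 he
    by_cases hn : ∃ i, ∀ x, ∃ v, e x = .node i v
    · obtain ⟨j, hj⟩ := hn
      choose v hv using hj
      obtain ⟨e', h1, h2⟩ := ih v (by have := hv x0; rw [h0] at this; cases this; rfl) (by
        intro s a b h
        have := he s a b h
        rw [hv, hv, R_lt] at this
        rcases this with h1 | ⟨_, _, _, h1, h2, h3⟩
        · exact absurd h1 (lt_irrefl _)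
        · cases h1; cases h2; exact h3)
      exact ⟨e', fun x => by rw [h1, hv]; rfl, h2⟩
    · exact ⟨e, fun _ => rfl, base e he hn⟩

def cc (m : ℕ) (s : Bool) (x : Fin (m + 1) × Bool) : ℤ :=
  if s then 2 * x.1 + (if x.2 then 1 else 0) else (if x.2 then 2 * m + 1 else 0) - 2 * x.1

lemma key {m : ℕ} (hm : 2 ≤ m) {w : ℤ} (hw : 0 ≤ w) (e : Fin (m + 1) × Bool → U)
    (he : ∀ s a b, cc m s a < cc m s b → R w s (e a) < R w s (e b)) :
    (m : ℤ) ≤ w ∧ ((m : ℤ) = w → col (e (0, true)) + 1 = col (e (⟨1, by omega⟩, true))) := by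
  obtain ⟨e', hc, h⟩ := descent w (cc m) (by
    intro I hI a ha b hb hab
    have bt : ∀ s a b x, a ∈ I → b ∈ I → cc m s a ≤ cc m s x → cc m s x ≤ cc m s b → x ∈ I := by
      intro s a b x ha hb h1 h2
      have inj : ∀ p q, cc m s p = cc m s q → p = q := by
        rintro ⟨p, p'⟩ ⟨q, q'⟩
        cases s <;> cases p' <;> cases q' <;> simp [cc, Fin.ext_iff] <;> omega
      rcases h1.eq_or_lt with h1 | h1
      · exact inj _ _ h1 ▸ ha
      rcases h2.eq_or_lt with h2 | h2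
      · exact inj _ _ h2 ▸ hb
      exact hI s a ha b hb x h1 h2
    have two : ∀ i j : Fin (m + 1), ∀ t, i < j → (i, t) ∈ I → (j, t) ∈ I →
        ∃ i j, (i, false) ∈ I ∧ (j, true) ∈ I := by
      intro i j t hij h1 h2
      have : (i : ℕ) < j := hij
      cases t
      · exact ⟨i, i, h1, bt true _ _ _ h1 h2 (by simp [cc]) (by simp [cc]; omega)⟩
      · exact ⟨j, i, bt true _ _ _ h1 h2 (by simp [cc]; omega) (by simp [cc]), h1⟩
    obtain ⟨i, j, h1, h2⟩ : ∃ i j, (i, false) ∈ I ∧ (j, true) ∈ I := by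
      obtain ⟨i, s⟩ := a
      obtain ⟨j, t⟩ := b
      by_cases hst : s = t
      · subst hst
        rcases lt_trichotomy i j with h | h | h
        · exact two i j s h ha hb
        · exact absurd (by rw [h]) hab
        · exact two j i s h hb ha
      · cases s <;> cases t <;> first | exact absurd rfl hst | exact ⟨_, _, ha, hb⟩ | exact ⟨_, _, hb, ha⟩
    have hi := i.2
    have hj := j.2
    have k1 : (0, false) ∈ I := bt false _ _ _ h1 h2 (by simp [cc]) (by simp [cc]; omega)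
    have k2 : (Fin.last m, true) ∈ I :=
      bt false _ _ _ h1 h2 (by simp [cc]; omega) (by simp [cc]; omega)
    rintro ⟨x, t⟩
    have hx := x.2
    exact bt true _ _ _ k1 k2 (by cases t <;> simp [cc] <;> omega)
      (by cases t <;> simp [cc] <;> omega))
    (0, true) _ e rfl he
  have cov : ∀ i j : Fin (m + 1), i ≤ j → ∃ a u b, e' (i, false) = .node a u ∧
      e' (j, true) = .leaf b ∧ b ≤ a ∧ a ≤ b + w := by
    intro i j hij
    have : (i : ℕ) ≤ j := hij
    have hj := j.2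
    have h1 := h true (i, false) (j, true) (by simp [cc]; omega)
    have h2 := h false (i, false) (j, true) (by simp [cc]; omega)
    generalize e' (i, false) = p at *
    generalize e' (j, true) = q at *
    rcases p with a | ⟨a, u⟩ <;> rcases q with b | ⟨b, v⟩ <;> simp [hd] at h1 h2 ⊢ <;> omega
  have inc : ∀ k s (hk : s + k < m + 1), hd w true (e' (⟨s, by omega⟩, false)) + 2 * k ≤
      hd w true (e' (⟨s + k, hk⟩, false)) := by
    intro k s
    induction k with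
    | zero => simp
    | succ k ih =>
      intro hk
      have h1 := ih (by omega)
      have h2 := h true (⟨s + k, by omega⟩, false) (⟨s + k, by omega⟩, true) (by simp [cc])
      have h3 := h true (⟨s + k, by omega⟩, true) (⟨s + (k + 1), hk⟩, false) (by simp [cc]; omega)
      push_cast
      omega
  obtain ⟨a0, _, j, p0, q, r0, -⟩ := cov 0 (Fin.last m) (Fin.zero_le _)
  obtain ⟨am, _, j', pm, q', -, rm⟩ := cov (Fin.last m) (Fin.last m) le_rfl
  obtain ⟨_, _, b0, -, q0, -⟩ := cov 0 0 le_rfl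
  obtain ⟨_, _, b1, -, q1, -⟩ := cov ⟨1, by omega⟩ ⟨1, by omega⟩ le_rfl
  rw [q] at q'
  cases q'
  have i1 := inc (m - 2) 2 (by omega)
  have e1 : (⟨2 + (m - 2), by omega⟩ : Fin (m + 1)) = Fin.last m := Fin.ext (by simp; omega)
  rw [e1, pm] at i1
  have g0 := h true (0, false) (0, true) (by simp [cc])
  have g1 := h true (0, true) (⟨1, by omega⟩, false) (by simp [cc])
  have g2 := h true (⟨1, by omega⟩, false) (⟨1, by omega⟩, true) (by simp [cc])
  have g3 := h true (⟨1, by omega⟩, true) (⟨2, by omega⟩, false) (by simp [cc])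
  rw [← hc, ← hc, q0, q1]
  rw [p0] at g0
  rw [q0] at g0 g1
  rw [q1] at g2 g3
  simp only [hd, col, if_true] at *
  omega

def Age (w : ℤ) (S : Set U) : Set Pm :=
  {π | ∃ e : Fin π.1 → U, (∀ i, e i ∈ S) ∧ ∀ i j, (i < j → R w true (e i) < R w true (e j)) ∧
    (π.2 i < π.2 j → R w false (e i) < R w false (e j))}

lemma age_class (w : ℤ) (S : Set U) : IsClass (Age w S) :=
  fun _ _ f hf ⟨e, h1, h2⟩ => ⟨e ∘ f, fun _ => h1 _, fun i j =>
    ⟨fun h => (h2 _ _).1 (hf.1 h), fun h => (h2 _ _).2 (hf.2 _ _ h)⟩⟩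

lemma rho {m : ℕ} (hm : 2 ≤ m) : ∃ ρ ∈ Age m Set.univ, ∀ (w : ℤ) S, 0 ≤ w → ρ ∈ Age w S →
    (m : ℤ) ≤ w ∧ ((m : ℤ) = w → ∃ a ∈ S, ∃ b ∈ S, col a + 1 = col b) := by
  have inj : ∀ s, Injective (cc m s) := by
    rintro s ⟨p, p'⟩ ⟨q, q'⟩
    cases s <;> cases p' <;> cases q' <;> simp [cc, Fin.ext_iff] <;> omega
  obtain ⟨ρ, e, he⟩ := realize _ _ (inj true) (inj false)
  let f : Fin (m + 1) × Bool → U := fun x =>
    if x.2 then .leaf (x.1 - m) else .node x.1 (.leaf 0)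
  have hf : ∀ s x, hd m s (f x) = cc m s x := by
    rintro s ⟨x, t⟩
    cases s <;> cases t <;> simp [f, hd, cc]
    ring
  refine ⟨ρ, ⟨f ∘ e, fun _ => trivial, fun i j => ⟨fun h => R_lt.mpr (Or.inl ?_),
    fun h => R_lt.mpr (Or.inl ?_)⟩⟩, ?_⟩
  · simpa [hf] using (he i j).1.mp h
  · simpa [hf] using (he i j).2.mp h
  rintro w S hw ⟨g, h1, h2⟩
  have := key hm hw (g ∘ e.symm) (by
    intro s a b h
    cases s
    · exact (h2 _ _).2 ((he _ _).2.mpr (by simpa using h))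
    · exact (h2 _ _).1 ((he _ _).1.mpr (by simpa using h)))
  exact ⟨this.1, fun h => ⟨_, h1 _, _, h1 _, this.2 h⟩⟩

theorem result : {C : Set Pm | IsClass C ∧ OneAmalg C ∧ Splittable C}.Infinite := by
  refine Set.infinite_of_injective_forall_mem
    (f := fun k : ℕ => Age ((k + 2 : ℕ) : ℤ) Set.univ) ?_ fun k => ⟨age_class _ _, ?_, ?_⟩
  · intro k l h
    obtain ⟨ρ, h1, h2⟩ := rho (m := k + 2) (by omega)
    obtain ⟨ρ', h1', h2'⟩ := rho (m := l + 2) (by omega)
    have a := (h2 _ _ (by omega) (h.subset h1)).1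
    have b := (h2' _ _ (by omega) (h.symm.subset h1')).1
    omega
  · generalize ((k + 2 : ℕ) : ℤ) = w
    rintro α - hα β ⟨e1, -, h1⟩ γ ⟨e2, -, h2⟩ f g - -
    obtain ⟨φ, ψ, hφ, hψ, h⟩ : ∃ φ ψ, Em w φ ∧ Em w ψ ∧ ∀ i, φ (e1 (f i)) = ψ (e2 (g i)) := by
      rcases isEmpty_or_nonempty (Fin α.1) with h | ⟨⟨i⟩⟩
      · exact ⟨id, id, fun _ _ _ h => h, fun _ _ _ h => h, fun i => h.elim i⟩
      · obtain ⟨φ, ψ, a, b, c⟩ := homog w (e1 (f i)) (e2 (g i))
        exact ⟨φ, ψ, a, b, fun j => (show i = j from Fin.ext (by omega)) ▸ c⟩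
    let Y : Set U := Set.range (φ ∘ e1) ∪ Set.range (ψ ∘ e2)
    have : Finite Y := ((Set.finite_range _).union (Set.finite_range _)).to_subtype
    obtain ⟨δ, e, he⟩ := realize (fun y : Y => R w true y) (fun y : Y => R w false y)
      ((R_inj _ _).comp Subtype.val_injective) ((R_inj _ _).comp Subtype.val_injective)
    refine ⟨δ, ⟨fun i => e i, fun _ => trivial, fun i j => ⟨(he i j).1.mp, (he i j).2.mp⟩⟩,
      fun i => e.symm ⟨φ (e1 i), Or.inl ⟨i, rfl⟩⟩, fun i => e.symm ⟨ψ (e2 i), Or.inr ⟨i, rfl⟩⟩,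
      ⟨fun i j a => (he _ _).1.mpr ?_, fun i j a => (he _ _).2.mpr ?_⟩,
      ⟨fun i j a => (he _ _).1.mpr ?_, fun i j a => (he _ _).2.mpr ?_⟩, ?_⟩
    · simpa using hφ _ _ _ ((h1 i j).1 a)
    · simpa using hφ _ _ _ ((h1 i j).2 a)
    · simpa using hψ _ _ _ ((h2 i j).1 a)
    · simpa using hψ _ _ _ ((h2 i j).2 a)
    · funext i
      simp [h]
  · obtain ⟨ρ, h1, h2⟩ := rho (m := k + 2) (by omega)
    refine ⟨Age ((k + 2 : ℕ) : ℤ) {u | col u % 2 = 0}, Age ((k + 2 : ℕ) : ℤ) {u | col u % 2 = 0}ᶜ,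
      age_class _ _, age_class _ _, ?_, fun h => ?_, fun h => ?_⟩
    · rintro π ⟨e, -, he⟩
      have part : ∀ S : Set U, ∃ α ∈ Age ((k + 2 : ℕ) : ℤ) S, ∃ f, Emb α π f ∧
          Set.range f = e ⁻¹' S := by
        intro S
        obtain ⟨α, d, hd⟩ := realize (fun y : e ⁻¹' S => y.1) (fun y : e ⁻¹' S => π.2 y.1)
          Subtype.val_injective (π.2.injective.comp Subtype.val_injective)
        refine ⟨α, ⟨fun i => e (d i), fun i => (d i).2, fun i j => ⟨fun a => (he _ _).1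
          ((hd i j).1.mp a), fun a => (he _ _).2 ((hd i j).2.mp a)⟩⟩, fun i => d i,
          ⟨fun i j => (hd i j).1.mp, fun i j => (hd i j).2.mp⟩, ?_⟩
        ext x
        exact ⟨fun ⟨i, hi⟩ => hi ▸ (d i).2, fun hx => ⟨d.symm ⟨x, hx⟩, by simp⟩⟩
      exact ⟨_, part _, part _⟩
    · obtain ⟨a, ha, b, hb, e⟩ := (h2 _ _ (by omega) (h h1)).2 rfl
      simp only [Set.mem_setOf_eq] at ha hb
      omega
    · obtain ⟨a, ha, b, hb, e⟩ := (h2 _ _ (by omega) (h h1)).2 rfl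
      simp only [Set.mem_compl_iff, Set.mem_setOf_eq] at ha hb
      omega

end Pool.Agent.Results.MP_80b08f_co.Many
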